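import Pool.Agent.WAP.StmtsM

set_option autoImplicit false

namespace Pool.Agent.WAP.H94

open Classical Polynomial WeierstrassCurve.Affine
open Pool.Agent.WAP

variable {F : Type} [NormedField F] [Algebra GaussianInt F] {ϖ : GaussianInt}

theorem um (h : IsLoc F ϖ) {x y : F} {M : ℝ} (hx : ‖x‖ < M) (hy : ‖y‖ < M) : ‖x + y‖ < M :=
  (h.ultra x y).trans_lt (max_lt hx hy)

theorem um_sub (h : IsLoc F ϖ) {x y : F} {M : ℝ} (hx : ‖x‖ < M) (hy : ‖y‖ < M) : ‖x - y‖ < M := by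
  rw [sub_eq_add_neg]
  exact um h hx (by rwa [norm_neg])

theorem um_eq (h : IsLoc F ϖ) {x y : F} (hx : ‖y‖ < ‖x‖) : ‖x + y‖ = ‖x‖ := by
  apply le_antisymm
  · exact (h.ultra x y).trans (max_le le_rfl hx.le)
  · by_contra hc
    have h1 : ‖(x + y) - y‖ < ‖x‖ := um_sub h (not_le.1 hc) hx
    rw [add_sub_cancel_right] at h1
    exact lt_irrefl _ h1

theorem qn_lt (h : IsLoc F ϖ) : qn F ϖ < 1 := (h.lt_one ϖ).2 dvd_rfl

theorem dvd_norm (h : IsLoc F ϖ) {N : ℕ} {a' a : GaussianInt} (hd : ϖ ^ N ∣ a' - a) :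
    ‖algebraMap GaussianInt F a' - algebraMap GaussianInt F a‖ ≤ qn F ϖ ^ N := by
  obtain ⟨t, ht⟩ := hd
  rw [← map_sub, ht, map_mul, map_pow, norm_mul, norm_pow]
  exact mul_le_of_le_one_right (pow_nonneg (norm_nonneg _) _) (h.int t)

theorem core (lin : LinStmt) (h : IsLoc F ϖ) {d : F} (hd : d ≠ 0) {P Q : Pt d} {η : ℝ}
    (hη1 : η ≤ 1) {N : ℕ} (hN : qn F ϖ ^ N < η)
    (hP : Big 1 P) (hQ : Big 1 Q) (hzP : zc P ≠ 0) (hQP : ‖zc Q‖ < η * ‖zc P‖)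
    (hdP : ‖d‖ * ‖zc P‖ ^ 2 < η) (a a' b' : GaussianInt) (hdv : ϖ ^ N ∣ a' - a) :
    Big 1 (sm a' P + sm b' Q) ∧
      ‖zc (sm a' P + sm b' Q) - algebraMap GaussianInt F a * zc P‖ < η * ‖zc P‖ := by
  have hz0 : 0 < ‖zc P‖ := norm_pos_iff.2 hzP
  obtain ⟨h1, h2⟩ := lin F ϖ h d hd a' b' P Q hP hQ
    (hQP.le.trans (mul_le_of_le_one_left (norm_nonneg _) hη1))
  refine ⟨h1, ?_⟩
  have e1 : zc (sm a' P + sm b' Q) - algebraMap GaussianInt F a * zc P =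
      (zc (sm a' P + sm b' Q) - (algebraMap GaussianInt F a' * zc P + algebraMap GaussianInt F b' * zc Q))
      + ((algebraMap GaussianInt F a' - algebraMap GaussianInt F a) * zc P +
        algebraMap GaussianInt F b' * zc Q) := by ring
  rw [e1]
  refine um h ?_ (um h ?_ ?_)
  · refine h2.trans_lt ?_
    have t0 : 0 ≤ ‖d‖ * ‖zc P‖ ^ 2 := by positivity
    have e2 : ‖d‖ ^ 2 * ‖zc P‖ ^ 5 = (‖d‖ * ‖zc P‖ ^ 2) * (‖d‖ * ‖zc P‖ ^ 2) * ‖zc P‖ := by ring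
    rw [e2]
    refine mul_lt_mul_of_pos_right ?_ hz0
    have : (‖d‖ * ‖zc P‖ ^ 2) * (‖d‖ * ‖zc P‖ ^ 2) ≤ (‖d‖ * ‖zc P‖ ^ 2) * 1 :=
      mul_le_mul_of_nonneg_left (hdP.le.trans hη1) t0
    linarith
  · rw [norm_mul]
    exact mul_lt_mul_of_pos_right ((dvd_norm h hdv).trans_lt hN) hz0
  · rw [norm_mul]
    exact (mul_le_of_le_one_left (norm_nonneg _) (h.int b')).trans_lt hQP

theorem mee (gdf : GdfStmt) (fra : FraStmt) (nrm : NrmStmt) (mzz : MzzStmt) (lin : LinStmt)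
    (zlv : ZlvStmt) : MeeStmt := by
  intro F _ _ ϖ h hϖ a b c e ρ hdet ha hc hρ
  obtain ⟨g1, g2, g3⟩ := gdf F (Or.inl ⟨ϖ, h⟩)
  have two : (2 : F) ≠ 0 := by
    have h2 := g1 2 (by norm_num)
    rwa [map_ofNat] at h2
  set A : F := algebraMap GaussianInt F a with hA
  set C : F := algebraMap GaussianInt F c with hC
  have hA0 : A ≠ 0 := g1 a ha
  have hC0 : C ≠ 0 := g1 c hc
  have hA1 : ‖A‖ ≤ 1 := h.int a
  have hC1 : ‖C‖ ≤ 1 := h.int c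
  have hAp : 0 < ‖A‖ := norm_pos_iff.2 hA0
  have hCp : 0 < ‖C‖ := norm_pos_iff.2 hC0
  obtain ⟨η, hη0, hηA, hηC, hηρ, hη1⟩ : ∃ η : ℝ, 0 < η ∧ η < ‖A‖ ∧ η < ‖C‖ ∧ η < ρ * ‖A‖ ^ 2 ∧ η < 1 := by
    have hp : 0 < min (min ‖A‖ ‖C‖) (min (ρ * ‖A‖ ^ 2) 1) :=
      lt_min (lt_min hAp hCp) (lt_min (by positivity) one_pos)
    obtain ⟨η, h1, h2⟩ := exists_between hp
    rw [lt_min_iff, lt_min_iff, lt_min_iff] at h2
    exact ⟨η, h1, h2.1.1, h2.1.2, h2.2.1, h2.2.2⟩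
  have hηρ' : η < ρ := by
    refine hηρ.trans_le ?_
    have : ‖A‖ ^ 2 ≤ 1 := pow_le_one₀ (norm_nonneg _) hA1
    nlinarith
  obtain ⟨N, hN⟩ := exists_pow_lt_of_lt_one hη0 (qn_lt h)
  refine ⟨η, N, hη0, ?_⟩
  intro a' b' c' e' hdet' d1 d2 d3 d4 z hz
  obtain ⟨hU, hz1, hz2, hz3⟩ := hz
  rw [sub_zero] at hz3
  obtain ⟨d, P, Q, hdn, rfl⟩ := nrm F ϖ h z hU
  have hd : d ≠ 0 := by
    rw [← norm_pos_iff]
    rcases hdn with h1 | h1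
    · rw [h1]; exact one_pos
    · rw [h1]; exact h.uni
  have hr1 : 1 < 1 / η := by
    rw [lt_div_iff₀ hη0]
    linarith
  obtain ⟨m1, m2, m3, m4⟩ := mzz F ϖ h d hd P Q
  obtain ⟨k1, hP0, hQ0, hzP, hzQ⟩ := m1 hU
  have hP : Big 1 P := Or.inr (hr1.trans hz1)
  have hQ : Big 1 Q := Or.inr (hr1.trans hz2)
  have hzp : 0 < ‖zc P‖ := norm_pos_iff.2 hzP
  have hQP : ‖zc Q‖ < η * ‖zc P‖ := by
    rw [k1, norm_div, div_lt_iff₀ hzp] at hz3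
    exact hz3
  have eP := m2 hP0 hP
  have hdp : 0 < ‖d‖ := norm_pos_iff.2 hd
  have hdP : ‖d‖ * ‖zc P‖ ^ 2 < η := by
    have t0 : 0 < ‖d‖ * ‖zc P‖ ^ 2 := by positivity
    have t1 : 1 / η * (‖d‖ * ‖zc P‖ ^ 2) < 1 :=
      (mul_lt_mul_of_pos_right hz1 t0).trans_eq eP
    rw [one_div, inv_mul_lt_iff₀ hη0, mul_one] at t1
    exact t1
  obtain ⟨bP, nP⟩ := core lin h hd hη1.le hN hP hQ hzP hQP hdP a a' b' d1
  obtain ⟨bQ, nQ⟩ := core lin h hd hη1.le hN hP hQ hzP hQP hdP c c' e' d3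
  set P' : Pt d := sm a' P + sm b' Q with hP'
  set Q' : Pt d := sm c' P + sm e' Q with hQ'
  -- the two quotients
  obtain ⟨δ1, hδ1, hzP'⟩ : ∃ δ1 : F, ‖δ1‖ < η ∧ zc P' = (A + δ1) * zc P := by
    refine ⟨(zc P' - A * zc P) / zc P, ?_, ?_⟩
    · rw [norm_div, div_lt_iff₀ hzp]
      exact nP
    · rw [add_mul, div_mul_cancel₀ _ hzP]
      ring
  obtain ⟨δ2, hδ2, hzQ'⟩ : ∃ δ2 : F, ‖δ2‖ < η ∧ zc Q' = (C + δ2) * zc P := by
    refine ⟨(zc Q' - C * zc P) / zc P, ?_, ?_⟩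
    · rw [norm_div, div_lt_iff₀ hzp]
      exact nQ
    · rw [add_mul, div_mul_cancel₀ _ hzP]
      ring
  have nA : ‖A + δ1‖ = ‖A‖ := um_eq h (hδ1.trans hηA)
  have nC : ‖C + δ2‖ = ‖C‖ := um_eq h (hδ2.trans hηC)
  have hAd : A + δ1 ≠ 0 := by
    rw [← norm_pos_iff, nA]
    exact hAp
  have hCd : C + δ2 ≠ 0 := by
    rw [← norm_pos_iff, nC]
    exact hCp
  have hzP'0 : zc P' ≠ 0 := by
    rw [hzP']
    exact mul_ne_zero hAd hzP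
  have hzQ'0 : zc Q' ≠ 0 := by
    rw [hzQ']
    exact mul_ne_zero hCd hzP
  have hP'0 : P' ≠ 0 := by
    intro h0
    rw [h0] at hzP'0
    exact hzP'0 zc_zero
  have hQ'0 : Q' ≠ 0 := by
    intro h0
    rw [h0] at hzQ'0
    exact hzQ'0 zc_zero
  obtain ⟨n1, n2, n3, n4⟩ := mzz F ϖ h d hd P' Q'
  have hU' : OnU (kum d P' Q') := n4 hP'0 bP hQ'0 bQ
  have size : ∀ X T : ℝ, 0 < T → T ≤ ‖zc P‖ → X * (‖d‖ * T ^ 2) = 1 → 1 / ρ < X := by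
    intro X T hT0 hT hX
    have t1 : 0 < ‖d‖ * T ^ 2 := by positivity
    have t2 : ‖d‖ * T ^ 2 ≤ ‖d‖ * ‖zc P‖ ^ 2 :=
      mul_le_mul_of_nonneg_left (pow_le_pow_left₀ hT0.le hT 2) hdp.le
    have t3 : ‖d‖ * T ^ 2 < ρ := (t2.trans_lt hdP).trans hηρ'
    have t4 : X = 1 / (‖d‖ * T ^ 2) := by
      rw [eq_div_iff t1.ne']
      exact hX
    rw [t4]
    exact one_div_lt_one_div_of_lt t1 t3
  refine ⟨kum d P' Q', ⟨hU, hU', hdet', ?_⟩, hU', ?_, ?_, ?_⟩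
  · exact (fra F two d P Q a' b' c' e' hd hU).symm
  · refine size _ ‖zc P'‖ (norm_pos_iff.2 hzP'0) ?_ (n2 hP'0 bP)
    rw [hzP', norm_mul, nA]
    exact mul_le_of_le_one_left hzp.le hA1
  · refine size _ ‖zc Q'‖ (norm_pos_iff.2 hzQ'0) ?_ (n3 hQ'0 bQ)
    rw [hzQ', norm_mul, nC]
    exact mul_le_of_le_one_left hzp.le hC1
  · rw [(n1 hU').1, hzP', hzQ', mul_div_mul_right _ _ hzP]
    have e5 : (C + δ2) / (A + δ1) - C / A = (A * δ2 - C * δ1) / (A * (A + δ1)) := by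
      field_simp
      ring
    rw [e5, norm_div, norm_mul, nA, div_lt_iff₀ (by positivity)]
    have e6 : ‖A * δ2 - C * δ1‖ < η := by
      refine um_sub h ?_ ?_
      · rw [norm_mul]
        exact (mul_le_of_le_one_left (norm_nonneg _) hA1).trans_lt hδ2
      · rw [norm_mul]
        exact (mul_le_of_le_one_left (norm_nonneg _) hC1).trans_lt hδ1
    calc ‖A * δ2 - C * δ1‖ < η := e6
      _ < ρ * ‖A‖ ^ 2 := hηρ
      _ = ρ * (‖A‖ * ‖A‖) := by ring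

end Pool.Agent.WAP.H94
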