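import Pool.Agent.WAP.StmtsL
import Pool.Agent.Helper32_WAP.Add

set_option autoImplicit false

namespace Pool.Agent.WAP.H94

open Classical Polynomial WeierstrassCurve.Affine
open Pool.Agent.WAP

theorem prf : PrfStmt := by
  intro F _ d h2 hd x1 y1 x2 y2 x3 y3 x4 y4 h1 h2' h3 h4 hx e1 e2
  have q1 : y1 ^ 2 = x1 ^ 3 - d ^ 2 * x1 := (W_equation d x1 y1).1 h1.1
  have q2 : y2 ^ 2 = x2 ^ 3 - d ^ 2 * x2 := (W_equation d x2 y2).1 h2'.1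
  have hP : (Point.some x1 y1 h1 : Pt d) ≠ 0 := Point.some_ne_zero _
  have hQ : (Point.some x2 y2 h2' : Pt d) ≠ 0 := Point.some_ne_zero _
  have hnQ : -(Point.some x2 y2 h2' : Pt d) ≠ 0 := neg_ne_zero.2 hQ
  have a1 := (H32.add_ne (P := (Point.some x1 y1 h1 : Pt d)) (Q := (Point.some x2 y2 h2' : Pt d)) hP hQ hx).2.1
  have a2 := (H32.add_ne (P := (Point.some x1 y1 h1 : Pt d)) (Q := -(Point.some x2 y2 h2' : Pt d)) hP hnQ
    (by rw [H32.cX_neg]; exact hx)).2.1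
  rw [e1] at a1
  rw [← sub_eq_add_neg, e2, H32.cX_neg, H32.cY_neg] at a2
  change x3 = ((y1 - y2) / (x1 - x2)) ^ 2 - x1 - x2 at a1
  change x4 = ((y1 - -y2) / (x1 - x2)) ^ 2 - x1 - x2 at a2
  have hD : x1 - x2 ≠ 0 := sub_ne_zero.2 hx
  have b1 : x3 * (x1 - x2) ^ 2 = (x1 * x2 - d ^ 2) * (x1 + x2) - 2 * y1 * y2 := by
    rw [a1, div_pow, sub_mul, sub_mul, div_mul_cancel₀ _ (pow_ne_zero 2 hD)]
    linear_combination q1 + q2
  have b2 : x4 * (x1 - x2) ^ 2 = (x1 * x2 - d ^ 2) * (x1 + x2) + 2 * y1 * y2 := by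
    rw [a2, div_pow, sub_mul, sub_mul, div_mul_cancel₀ _ (pow_ne_zero 2 hD)]
    linear_combination q1 + q2
  have b3 : (y1 * y2) ^ 2 = (x1 ^ 3 - d ^ 2 * x1) * (x2 ^ 3 - d ^ 2 * x2) := by
    rw [mul_pow, q1, q2]
  have b4 : (x3 * x4 * (x1 - x2) ^ 2) * (x1 - x2) ^ 2 = (x1 * x2 + d ^ 2) ^ 2 * (x1 - x2) ^ 2 := by
    have b5 : (x3 * x4 * (x1 - x2) ^ 2) * (x1 - x2) ^ 2 =
        (x3 * (x1 - x2) ^ 2) * (x4 * (x1 - x2) ^ 2) := by ring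
    rw [b5, b1, b2]
    linear_combination -4 * b3
  exact mul_right_cancel₀ (pow_ne_zero 2 hD) b4

end Pool.Agent.WAP.H94
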